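import Pool.Agent.H83.UE.Targets3
import Pool.Agent.H43.UDA.DIA

/-!
MP_75a732_an, board udb_modules, row DIE: diagonal terms for products.
-/

set_option autoImplicit false

open Polynomial MeasureTheory Filter Topology Set
open scoped OnePoint ComplexConjugate ComplexOrder Laplacian ENNReal
open Pool.Agent.H83.UE Pool.Agent.H47.UDA

namespace Pool.Agent.H10.UDB

open Pool.Agent.H43.UDA (prod_sub_prod_le int_diag)

theorem cd_le_two (v w : ℂ × ℂ) : cd v w ≤ 2 := by
  unfold cd wd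
  have h1 : ‖v.1‖ ≤ ‖v‖ := norm_fst_le v
  have h2 : ‖v.2‖ ≤ ‖v‖ := norm_snd_le v
  have h3 : ‖w.1‖ ≤ ‖w‖ := norm_fst_le w
  have h4 : ‖w.2‖ ≤ ‖w‖ := norm_snd_le w
  have h5 : ‖v.1 * w.2 - v.2 * w.1‖ ≤ 2 * (‖v‖ * ‖w‖) := by
    refine (norm_sub_le _ _).trans ?_
    rw [norm_mul, norm_mul]
    have h6 := mul_le_mul h1 h4 (norm_nonneg _) (norm_nonneg _)
    have h7 := mul_le_mul h2 h3 (norm_nonneg _) (norm_nonneg _)
    linarith
  have h6 : 0 ≤ ‖v‖ * ‖w‖ := by positivity
  exact div_le_of_le_mul₀ h6 (by norm_num) h5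

theorem cd_nonneg (v w : ℂ × ℂ) : 0 ≤ cd v w := by
  unfold cd
  positivity

theorem om_le (E : Finset (OnePoint ℂ)) (z : ℂ) : om E z ≤ 2 ^ E.card := by
  unfold om omh
  rw [← Finset.prod_const]
  exact Finset.prod_le_prod (fun _ _ => cd_nonneg _ _) fun _ _ => cd_le_two _ _

theorem om_meas (E : Finset (OnePoint ℂ)) : Measurable (om E) := by
  unfold om omh cd wd
  refine Finset.measurable_prod _ fun e _ => ?_
  have h1 : Measurable fun z : ℂ => ((z, 1) : ℂ × ℂ) := measurable_id.prodMk measurable_const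
  have h2 : Measurable fun z : ℂ => ‖((z, 1) : ℂ × ℂ)‖ := h1.norm
  have h3 : Measurable fun z : ℂ => ‖z * (vec e).2 - 1 * (vec e).1‖ :=
    ((measurable_id.mul_const _).sub measurable_const).norm
  exact h3.div (h2.mul_const _)

/-- the logarithm of the weight -/
theorem om_log (E : Finset (OnePoint ℂ)) (z : ℂ) (a : ℝ) (ha : 0 ≤ a)
    (h : Real.exp (-a) ≤ om E z) : om E z ≠ 0 ∧ |Real.log (om E z)| ≤ a + E.card * Real.log 2 := by
  have h0 : 0 < om E z := lt_of_lt_of_le (Real.exp_pos _) h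
  refine ⟨h0.ne', ?_⟩
  have h1 : -a ≤ Real.log (om E z) := (Real.le_log_iff_exp_le h0).2 h
  have h2 : Real.log (om E z) ≤ E.card * Real.log 2 := by
    rw [← Real.log_pow]
    exact Real.log_le_log h0 (om_le E z)
  have h3 : 0 ≤ (E.card : ℝ) * Real.log 2 := mul_nonneg (Nat.cast_nonneg _) (Real.log_nonneg (by norm_num))
  rw [abs_le]
  constructor <;> linarith

theorem zone_meas {k : ℕ} (E : Fin k → Finset (OnePoint ℂ)) (A : Finset (Fin k)) (a b : ℝ) :
    MeasurableSet (Zone E A a b) := by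
  have e : Zone E A a b = (⋂ l, ⋂ (_ : l ∈ A), {z | om (E l) (z l) ≤ Real.exp (-a)}) ∩
      ⋂ l, ⋂ (_ : l ∉ A), {z | Real.exp (-b) ≤ om (E l) (z l)} := by
    ext z
    simp [Zone]
  rw [e]
  refine MeasurableSet.inter ?_ ?_
  · refine MeasurableSet.iInter fun l => MeasurableSet.iInter fun _ => ?_
    exact measurableSet_le ((om_meas _).comp (measurable_pi_apply l)) measurable_const
  · refine MeasurableSet.iInter fun l => MeasurableSet.iInter fun _ => ?_
    exact measurableSet_le measurable_const ((om_meas _).comp (measurable_pi_apply l))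

/-- absolute values of the factors -/
theorem fac_le_nfac {d : ℕ} (g : RatMap d) (n : ℕ) (u : ℂ → ℂ) (z : ℂ) :
    ‖fac g n True True u z‖ₑ ≤ nfac g n True True (fun x => ‖u x‖ₑ) z := by
  unfold fac nfac
  refine (enorm_msum _ _).trans (Multiset.sum_map_le_sum_map _ _ fun x _ => ?_)
  refine (enorm_div_le' _ _).trans ?_
  simp only [if_true]
  rw [enorm_mul, RCLike.enorm_conj]

theorem nfac_meas (h1 : T_IT) (h7 : T_MEA) {d : ℕ} (hd : 1 ≤ d) (g : RatMap d) (n : ℕ)
    (u : ℂ → ℂ) (hu : Measurable u) : Measurable (nfac g n True True fun x => ‖u x‖ₑ) := by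
  obtain ⟨hP, hQ, hPQ, hc, -⟩ := h1 d hd g n
  have hD : 1 ≤ d ^ n := Nat.one_le_pow _ _ hd
  have hpos : 0 < (g.it n).1.natDegree ∨ 0 < (g.it n).2.natDegree := by
    rcases hPQ with h | h
    · left
      omega
    · right
      omega
  refine (h7 _ _ hc hpos).1 (fun x => ‖u x‖ₑ / ((if True then ‖g.der n x‖ₑ else 1) *
    (if True then ‖g.der n x‖ₑ else 1))) ?_
  simp only [if_true]
  have hm : Measurable fun x => g.der n x := measurable_deriv _
  exact hu.enorm.div (hm.enorm.mul hm.enorm)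

/-- the limit of the normalised sums over fibres -/
theorem une_val {d : ℕ} (hd : 2 ≤ d) (h2 : T_UNE) (h3 : T_RU) (g : RatMap d)
    (E : Finset (OnePoint ℂ)) (κ : ℝ) (hg : GoodE g E κ) (G : ℂ → ℝ) (μ : Measure ℂ)
    (hG : GreenBd g G) [IsProbabilityMeasure μ]
    (hμ : ∀ u : ℂ → ℝ, ContDiff ℝ 2 u → HasCompactSupport u →
      ∫ x, u x ∂μ = (2 * Real.pi)⁻¹ * ∫ x, G x * (Δ u) x)
    (u : ℂ → ℂ) (hu : ContDiff ℝ 2 u) (hc : HasCompactSupport u) :
    ∃ C : ℝ, 0 ≤ C ∧ ∀ (n : ℕ) (z : ℂ), om E z ≠ 0 →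
      ‖((d : ℂ) ^ n)⁻¹ * ((g.fib n z).roots.map u).sum - ∫ x, u x ∂μ‖ ≤
        C * ((κ / d) ^ n + |Real.log (om E z)| / (d : ℝ) ^ n) := by
  obtain ⟨hD, hp⟩ := h3 u hu hc
  obtain ⟨C, hC0, hC⟩ := h2 d hd g E κ hg G hG (dens u) hD
  refine ⟨C, hC0, fun n z hz => ?_⟩
  have h := hC n z hz
  rw [hp] at h
  have hre : ContDiff ℝ 2 (fun x => (u x).re) := Complex.reCLM.contDiff.comp hu
  have him : ContDiff ℝ 2 (fun x => (u x).im) := Complex.imCLM.contDiff.comp hu
  have hrc : HasCompactSupport (fun x => (u x).re) := hc.comp_left (g := Complex.re) rfl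
  have hic : HasCompactSupport (fun x => (u x).im) := hc.comp_left (g := Complex.im) rfl
  have hlapc : ∀ φ : ℂ → ℝ, ContDiff ℝ 2 φ → Continuous (Δ φ) := by
    intro φ hφ
    rw [InnerProductSpace.laplacian_eq_iteratedFDeriv_complexPlane]
    have h : Continuous (iteratedFDeriv ℝ 2 φ) := hφ.continuous_iteratedFDeriv le_rfl
    have h1 : ∀ v : Fin 2 → ℂ, Continuous fun x => iteratedFDeriv ℝ 2 φ x v := fun v =>
      (ContinuousMultilinearMap.apply ℝ (fun _ : Fin 2 => ℂ) ℝ v).continuous.comp h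
    exact (h1 _).add (h1 _)
  have hlaps : ∀ φ : ℂ → ℝ, HasCompactSupport φ → HasCompactSupport (Δ φ) := by
    intro φ hφ
    refine HasCompactSupport.intro hφ fun z hz => ?_
    rw [InnerProductSpace.laplacian_eq_iteratedFDeriv_complexPlane]
    have h : iteratedFDeriv ℝ 2 φ z = 0 := by
      by_contra hne
      exact hz (support_iteratedFDeriv_subset 2 (Function.mem_support.2 hne))
    simp only [h]
    simp
  have hi : ∀ φ : ℂ → ℝ, ContDiff ℝ 2 φ → HasCompactSupport φ →
      Integrable (fun w => G w * (Δ φ) w) := fun φ hφ hφc =>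
    (hG.1.mul (hlapc φ hφ)).integrable_of_hasCompactSupport (hlaps φ hφc).mul_left
  have hui : Integrable u μ := hu.continuous.integrable_of_hasCompactSupport hc
  have hval : ∫ w, (G w : ℂ) * dens u w = ∫ x, u x ∂μ := by
    have e1 : ∀ w : ℂ, (G w : ℂ) * dens u w = (((2 * Real.pi)⁻¹ : ℝ) : ℂ) *
        (((G w * (Δ fun x => (u x).re) w : ℝ) : ℂ) +
          Complex.I * ((G w * (Δ fun x => (u x).im) w : ℝ) : ℂ)) := by
      intro w
      unfold dens lapC
      push_cast
      ring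
    simp only [e1]
    rw [integral_const_mul, integral_add (hi _ hre hrc).ofReal ((hi _ him hic).ofReal.const_mul _),
      integral_const_mul, integral_complex_ofReal, integral_complex_ofReal]
    have e2 : ∫ x, u x ∂μ = ((∫ x, (u x).re ∂μ : ℝ) : ℂ) +
        Complex.I * ((∫ x, (u x).im ∂μ : ℝ) : ℂ) := by
      rw [← integral_complex_ofReal, ← integral_complex_ofReal, ← integral_const_mul,
        ← integral_add hui.re.ofReal (hui.im.ofReal.const_mul _)]
      refine integral_congr_ae (Eventually.of_forall fun x => ?_)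
      show u x = ((u x).re : ℂ) + Complex.I * ((u x).im : ℂ)
      rw [mul_comm]
      exact (Complex.re_add_im (u x)).symm
    rw [e2, hμ _ hre hrc, hμ _ him hic]
    push_cast
    ring
  rw [hval] at h
  exact h


/-- pointwise bound: good points and zones -/
theorem split_zone {k : ℕ} (E : Fin k → Finset (OnePoint ℂ)) (I : Finset (Fin k)) (h10 : T_PIG)
    (W w : (Fin k → ℂ) → ℝ≥0∞) (D : (Fin k → ℂ) → ℝ≥0∞) (a b : ℝ≥0∞) (T ε η : ℝ) (hT : 0 < T)
    (hε : 0 < ε) (hη : 0 < η) (hη1 : η < 1) (hWw : ∀ z, W z ≤ w z) (hD : ∀ z, D z ≤ b)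
    (hgood : ∀ z, (∀ l, l ∉ I → Real.exp (-(ε * T)) ≤ om (E l) (z l)) → D z ≤ a)
    (z : Fin k → ℂ) :
    D z * W z ≤ a * W z + ∑ p ∈ (Finset.range (k + 1)) ×ˢ
      (Finset.univ.filter fun A : Finset (Fin k) => ¬ A ⊆ I),
      (Zone E p.2 (ε * η ^ p.1 * T) (η * (ε * η ^ p.1 * T))).indicator (fun z => b * w z) z := by
  obtain ⟨j, hj, A, hA⟩ := h10 k E T ε η hT hε hη hη1 z
  by_cases hAI : A ⊆ I
  · refine le_trans ?_ le_self_add
    refine mul_le_mul' (hgood z fun l hl => ?_) le_rfl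
    refine le_trans (Real.exp_le_exp.2 ?_) (hA.2 l fun h => hl (hAI h))
    have h1 : η ^ j ≤ 1 := pow_le_one₀ hη.le hη1.le
    have h2 : 0 ≤ ε * η ^ j * T := by positivity
    have h3 : ε * η ^ j * T ≤ ε * T := by
      have : ε * η ^ j ≤ ε * 1 := mul_le_mul_of_nonneg_left h1 hε.le
      have := mul_le_mul_of_nonneg_right this hT.le
      linarith
    have h4 : η * (ε * η ^ j * T) ≤ 1 * (ε * η ^ j * T) := mul_le_mul_of_nonneg_right hη1.le h2
    linarith
  · have hmem : (j, A) ∈ (Finset.range (k + 1)) ×ˢ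
        (Finset.univ.filter fun A : Finset (Fin k) => ¬ A ⊆ I) := by
      rw [Finset.mem_product]
      exact ⟨Finset.mem_range.2 (by omega), Finset.mem_filter.2 ⟨Finset.mem_univ _, hAI⟩⟩
    have h1 := Finset.single_le_sum (f := fun p : ℕ × Finset (Fin k) =>
      (Zone E p.2 (ε * η ^ p.1 * T) (η * (ε * η ^ p.1 * T))).indicator (fun z => b * w z) z)
      (fun _ _ => bot_le) hmem
    simp only at h1
    rw [Set.indicator_of_mem hA] at h1
    refine le_trans ?_ (h1.trans le_add_self)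
    exact mul_le_mul' (hD z) (hWw z)

theorem pf_DIE (h1 : T_IT) (h2 : T_UNE) (h3 : T_RU) (h4 : T_INT) (h5 : T_MAR) (h6 : T_FP)
    (h7 : T_MEA) (h8 : T_CON) (h9 : T_KEY) (h10 : T_PIG) : T_DIE := by
  intro k m d hd hmk g E κ G μ hData u hu huc S hS I
  obtain ⟨hg, hG, hμp, hμ⟩ := hData
  classical
  have hd1 : 1 ≤ d := by omega
  have hd0 : (0 : ℝ) < d := by exact_mod_cast hd1
  have hum : ∀ l, Measurable (u l) := fun l => (hu l).continuous.measurable
  obtain ⟨κ', hκ1, hκd, hκκ⟩ : ∃ κ' : ℝ, 1 ≤ κ' ∧ κ' < d ∧ (0 < k → κ' = κ) := by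
    rcases Nat.eq_zero_or_pos k with h0 | h0
    · exact ⟨1, le_rfl, by exact_mod_cast hd, fun h => absurd h (by omega)⟩
    · exact ⟨κ, (hg ⟨0, h0⟩).1, (hg ⟨0, h0⟩).2.1, fun _ => rfl⟩
  have hC1 : ∀ l, ∃ C : ℝ, 0 ≤ C ∧ ∀ (n : ℕ) (z : ℂ), om (E l) z ≠ 0 →
      ‖((d : ℂ) ^ n)⁻¹ * (((g l).fib n z).roots.map (u l)).sum - ∫ x, u l x ∂(μ l)‖ ≤
        C * ((κ' / d) ^ n + |Real.log (om (E l) z)| / (d : ℝ) ^ n) := fun l => by
    have := hμp l
    rw [hκκ (Fin.pos l)]
    exact une_val hd h2 h3 (g l) (E l) κ (hg l) (G l) (μ l) (hG l) (hμ l) (u l) (hu l) (huc l)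
  choose C1 hC10 hC1 using hC1
  have hM : ∀ l, ∃ M : ℝ, 0 ≤ M ∧ ∀ x, ‖u l x‖ ≤ M := by
    intro l
    obtain ⟨M, hM⟩ := (hu l).continuous.bounded_above_of_compact_support (huc l)
    exact ⟨M, (norm_nonneg _).trans (hM 0), hM⟩
  choose M hM0 hM using hM
  have hU : ∀ l, ∃ U : ℝ, 0 ≤ U ∧ ∫⁻ x, ‖u l x‖ₑ ≤ ENNReal.ofReal U := by
    intro l
    have hi : Integrable (u l) := (hu l).continuous.integrable_of_hasCompactSupport (huc l)
    refine ⟨(∫⁻ x, ‖u l x‖ₑ).toReal, ENNReal.toReal_nonneg, ?_⟩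
    rw [ENNReal.ofReal_toReal hi.2.ne]
  choose U hU0 hU using hU
  have hR : ∀ l, ∃ R : ℝ, 0 ≤ R ∧ ∀ x, R ≤ ‖x‖ → u l x = 0 := by
    intro l
    obtain ⟨R, hR⟩ := (huc l).isCompact.isBounded.subset_ball (0 : ℂ)
    refine ⟨max R 0, le_max_right _ _, fun x hx => ?_⟩
    by_contra hne
    have := hR (subset_tsupport _ (Function.mem_support.2 hne))
    rw [mem_ball_zero_iff] at this
    have := le_max_left R 0
    linarith
  choose R hR0 hR using hR
  obtain ⟨T, hT⟩ : ∃ T : ℝ, T = 1 + ∑ l, (U l + C1 l + ‖∫ x, u l x ∂(μ l)‖ + M l) := ⟨_, rfl⟩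
  have hTl : ∀ l, U l + C1 l + ‖∫ x, u l x ∂(μ l)‖ + M l ≤ T := by
    intro l
    have := Finset.single_le_sum (f := fun l => U l + C1 l + ‖∫ x, u l x ∂(μ l)‖ + M l)
      (fun i _ => add_nonneg (add_nonneg (add_nonneg (hU0 i) (hC10 i)) (norm_nonneg _)) (hM0 i))
      (Finset.mem_univ l)
    rw [hT]
    linarith
  have hT1 : 1 ≤ T := by
    have : 0 ≤ ∑ l, (U l + C1 l + ‖∫ x, u l x ∂(μ l)‖ + M l) := Finset.sum_nonneg fun i _ =>
      add_nonneg (add_nonneg (add_nonneg (hU0 i) (hC10 i)) (norm_nonneg _)) (hM0 i)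
    rw [hT]
    linarith
  have hT0 : 0 ≤ T := by linarith
  have hTC : ∀ l, C1 l ≤ T := fun l => by
    have := hTl l
    have := hU0 l
    have := hM0 l
    have := norm_nonneg (∫ x, u l x ∂(μ l))
    linarith
  have hTM : ∀ l, M l ≤ T := fun l => by
    have := hTl l
    have := hU0 l
    have := hC10 l
    have := norm_nonneg (∫ x, u l x ∂(μ l))
    linarith
  have hTb : ∀ l, ‖∫ x, u l x ∂(μ l)‖ ≤ T := fun l => by
    have := hTl l
    have := hU0 l
    have := hC10 l
    have := hM0 l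
    linarith
  have hTU : ∀ l, U l ≤ T := fun l => by
    have := hTl l
    have := hM0 l
    have := hC10 l
    have := norm_nonneg (∫ x, u l x ∂(μ l))
    linarith
  -- constants for the zones
  obtain ⟨L, hL⟩ : ∃ L : ℝ, L = ∑ l, ((E l).card : ℝ) * Real.log 2 := ⟨_, rfl⟩
  have hl2 : 0 ≤ Real.log 2 := Real.log_nonneg (by norm_num)
  have hLl : ∀ l, ((E l).card : ℝ) * Real.log 2 ≤ L := by
    intro l
    rw [hL]
    exact Finset.single_le_sum (f := fun l => ((E l).card : ℝ) * Real.log 2)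
      (fun i _ => mul_nonneg (Nat.cast_nonneg _) hl2) (Finset.mem_univ l)
  have hL0 : 0 ≤ L := by
    rw [hL]
    exact Finset.sum_nonneg fun i _ => mul_nonneg (Nat.cast_nonneg _) hl2
  have hkey : ∀ A : Finset (Fin k), ∃ C : ℝ, 0 ≤ C ∧ (¬ A ⊆ I.1 → ∀ c η : ℝ, 0 < c → 0 < η →
      ∃ n₀ : ℕ, ∀ n, n₀ ≤ n →
        ∫⁻ z in Zone E A (c * (d : ℝ) ^ n) (η * (c * (d : ℝ) ^ n)),
          (∏ l ∈ I.1, nfac (g l) n True True (fun x => ‖u l x‖ₑ) (z l)) *
            ENNReal.ofReal (S.h z I I).re ∂S.σ ≤ ENNReal.ofReal (C * η)) := by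
    intro A
    by_cases hA : A ⊆ I.1
    · exact ⟨0, le_rfl, fun h => absurd hA h⟩
    · obtain ⟨C, hC0, hC⟩ := h9 k m d hd g E κ hg S hS A I hA (∑ l, R l) T
      refine ⟨C, hC0, fun _ c η hc hη => ?_⟩
      obtain ⟨n₀, hn₀⟩ := hC c η hc hη
      refine ⟨n₀, fun n hn => hn₀ n hn (fun l x => ‖u l x‖ₑ) (fun l => (hum l).enorm)
        (fun l x => ?_) (fun l x hx => ?_)⟩
      · rw [← ofReal_norm]
        exact ENNReal.ofReal_le_ofReal ((hM l x).trans (hTM l))
      · rw [hR l x, enorm_zero]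
        refine le_trans ?_ hx
        exact Finset.single_le_sum (f := R) (fun i _ => hR0 i) (Finset.mem_univ l)
  choose CA hCA0 hCA using hkey
  obtain ⟨C2, hC2⟩ : ∃ C2 : ℝ, C2 = k * T ^ k * (S.c I * T ^ k) := ⟨_, rfl⟩
  have hC20 : 0 ≤ C2 := by rw [hC2]; positivity
  obtain ⟨C3, hC3⟩ : ∃ C3 : ℝ, C3 = ∑ p ∈ (Finset.range (k + 1)) ×ˢ
      (Finset.univ.filter fun A : Finset (Fin k) => ¬ A ⊆ I.1), 2 * T ^ k * CA p.2 := ⟨_, rfl⟩
  have hC30 : 0 ≤ C3 := by
    rw [hC3]
    exact Finset.sum_nonneg fun p _ => mul_nonneg (by positivity) (hCA0 _)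
  -- the main bound
  have hmain : ∀ ε η : ℝ, 0 < ε → 0 < η → η < 1 → ∃ n₀ : ℕ, ∀ n, n₀ ≤ n →
      ‖pairing g n S I I (fun x => ∏ l, u l (x l)) -
        (S.c I : ℂ) * ∫ x, ∏ l, u l (x l) ∂(limMeas μ I)‖ ≤
      C2 * ((κ' / d) ^ n + ε + L / (d : ℝ) ^ n) + C3 * η := by
    intro ε η hε hη hη1
    have hn : ∀ p : ℕ × Finset (Fin k), ∃ n₀ : ℕ, ∀ n, n₀ ≤ n → ¬ p.2 ⊆ I.1 →
        ∫⁻ z in Zone E p.2 (ε * η ^ p.1 * (d : ℝ) ^ n) (η * (ε * η ^ p.1 * (d : ℝ) ^ n)),
          (∏ l ∈ I.1, nfac (g l) n True True (fun x => ‖u l x‖ₑ) (z l)) *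
            ENNReal.ofReal (S.h z I I).re ∂S.σ ≤ ENNReal.ofReal (CA p.2 * η) := by
      intro p
      by_cases hp : p.2 ⊆ I.1
      · exact ⟨0, fun n _ h => absurd hp h⟩
      · obtain ⟨n₀, hn₀⟩ := hCA p.2 hp (ε * η ^ p.1) η (by positivity) hη
        exact ⟨n₀, fun n hn _ => hn₀ n hn⟩
    choose n₀ hn₀ using hn
    refine ⟨((Finset.range (k + 1)) ×ˢ (Finset.univ.filter fun A : Finset (Fin k) =>
      ¬ A ⊆ I.1)).sup n₀, fun n hn => ?_⟩
    have hdn0 : (0 : ℝ) < (d : ℝ) ^ n := pow_pos hd0 n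
    -- the factors
    obtain ⟨F, hF⟩ : ∃ F : (Fin k → ℂ) → ℂ, F = fun z =>
        ∏ l ∈ I.1, fac (g l) n True True (u l) (z l) := ⟨_, rfl⟩
    obtain ⟨B, hB⟩ : ∃ B : (Fin k → ℂ) → ℂ, B = fun z =>
        ∏ l ∈ I.1ᶜ, (((d : ℂ) ^ n)⁻¹ * fac (g l) n False False (u l) (z l)) := ⟨_, rfl⟩
    obtain ⟨b, hb⟩ : ∃ b : ℂ, b = ∏ l ∈ I.1ᶜ, ∫ x, u l x ∂(μ l) := ⟨_, rfl⟩
    have hfout : ∀ l z, fac (g l) n False False (u l) z =
        (((g l).fib n z).roots.map (u l)).sum := by
      intro l z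
      unfold fac
      congr 1
      refine Multiset.map_congr rfl fun x _ => ?_
      simp
    have hfin : ∀ l z, fac (g l) n True True (u l) z = (((g l).fib n z).roots.map fun x =>
        u l x / ((g l).der n x * conj ((g l).der n x))).sum := by
      intro l z
      unfold fac
      simp
    have hIc : (I.1ᶜ).card = k - m := by
      rw [Finset.card_compl, Fintype.card_fin, I.2]
    have hck : (I.1ᶜ).card ≤ k := by rw [hIc]; omega
    have hpush : ∀ z, pushCoeff g n I I (fun x => ∏ l, u l (x l)) z =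
        F z * (((d : ℂ) ^ ((k - m) * n)) * B z) := by
      intro z
      rw [h6, ← Finset.prod_mul_prod_compl I.1]
      have hn : ((d : ℂ) ^ n) ≠ 0 := pow_ne_zero _ (by exact_mod_cast (by omega : d ≠ 0))
      congr 1
      · rw [hF]
        refine Finset.prod_congr rfl fun l hl => ?_
        unfold fac
        simp [hl]
      · rw [hB]
        simp only
        rw [Finset.prod_mul_distrib, Finset.prod_const, hIc, inv_pow, ← pow_mul, mul_comm n,
          ← mul_assoc, mul_inv_cancel₀ (pow_ne_zero _ (by exact_mod_cast (by omega : d ≠ 0))),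
          one_mul]
        refine Finset.prod_congr rfl fun l hl => ?_
        rw [Finset.mem_compl] at hl
        unfold fac
        simp [hl]
    -- the pairing
    have hdn : ((d : ℂ) ^ ((k - m) * n)) ≠ 0 :=
      pow_ne_zero _ (by exact_mod_cast (by omega : d ≠ 0))
    have hpair : pairing g n S I I (fun x => ∏ l, u l (x l)) =
        ∫ z, F z * B z * S.h z I I ∂S.σ := by
      unfold pairing
      rw [← integral_const_mul]
      refine integral_congr_ae (Eventually.of_forall fun z => ?_)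
      simp only
      rw [hpush]
      field_simp
    -- measurability
    have hFl : ∀ l, Measurable fun z => fac (g l) n True True (u l) z := fun l =>
      fac_meas h1 h7 hd1 (g l) n True True (u l) (hum l)
    have hFm : Measurable F := by
      rw [hF]
      exact Finset.measurable_prod _ fun l _ => (hFl l).comp (measurable_pi_apply l)
    have hBm : Measurable B := by
      rw [hB]
      exact Finset.measurable_prod _ fun l _ =>
        ((fac_meas h1 h7 hd1 (g l) n False False (u l) (hum l)).comp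
          (measurable_pi_apply l)).const_mul _
    have hFe : ∀ z, ‖F z * S.h z I I‖ₑ =
        (∏ l ∈ I.1, ‖fac (g l) n True True (u l) (z l)‖ₑ) * ENNReal.ofReal (S.h z I I).re := by
      intro z
      have h0 : 0 ≤ S.h z I I := (S.psd z).diag_nonneg
      rw [Complex.le_def] at h0
      have h2 : S.h z I I = ((S.h z I I).re : ℂ) := by
        apply Complex.ext
        · simp
        · simpa using h0.2.symm
      rw [enorm_mul, hF]
      simp only
      rw [enorm_prodC]
      congr 1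
      rw [← ofReal_norm]
      conv_lhs => rw [h2]
      rw [Complex.norm_real, Real.norm_of_nonneg h0.1]
    -- bound of the absolute integral
    have habs : ∫⁻ z, ‖F z * S.h z I I‖ₑ ∂S.σ ≤ ENNReal.ofReal (S.c I * T ^ k) := by
      simp only [hFe]
      rw [h5 k m S I (fun l x => ‖fac (g l) n True True (u l) x‖ₑ) fun l => (hFl l).enorm]
      rw [ENNReal.ofReal_mul (by positivity), ENNReal.ofReal_coe_nnreal]
      refine mul_le_mul' le_rfl ?_
      have e2 : ∏ j ∈ I.1, ∫⁻ x, ‖fac (g j) n True True (u j) x‖ₑ ≤ ENNReal.ofReal T ^ m := by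
        have e3 : ENNReal.ofReal T ^ m = ∏ j ∈ I.1, ENNReal.ofReal T := by
          rw [Finset.prod_const, I.2]
        rw [e3]
        refine Finset.prod_le_prod' fun l _ => ?_
        exact (fac_in h1 h8 hd1 (g l) n True True trivial trivial (u l) (hum l)).trans
          ((hU l).trans (ENNReal.ofReal_le_ofReal (hTU l)))
      refine e2.trans ?_
      rw [← ENNReal.ofReal_pow hT0]
      exact ENNReal.ofReal_le_ofReal (pow_le_pow_right₀ hT1 hmk)
    have hFH : Integrable (fun z => F z * S.h z I I) S.σ :=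
      ⟨(hFm.mul (S.meas I I)).aestronglyMeasurable, lt_of_le_of_lt habs ENNReal.ofReal_lt_top⟩
    -- bounds for the other factors
    have hvb : ∀ l z, ‖((d : ℂ) ^ n)⁻¹ * fac (g l) n False False (u l) z‖ ≤ T := by
      intro l z
      have e1 := fac_out h1 hd1 (g l) n False False id id (u l) (ENNReal.ofReal (M l))
        (fun x => by
          rw [← ofReal_norm]
          exact ENNReal.ofReal_le_ofReal (hM l x)) z
      have e2 : (d : ℝ≥0∞) ^ n = ENNReal.ofReal ((d : ℝ) ^ n) := by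
        rw [ENNReal.ofReal_pow hd0.le, ENNReal.ofReal_natCast]
      rw [e2, ← ENNReal.ofReal_mul hdn0.le, ← ofReal_norm,
        ENNReal.ofReal_le_ofReal_iff (mul_nonneg hdn0.le (hM0 l))] at e1
      rw [norm_mul, norm_inv, norm_pow, Complex.norm_natCast]
      calc ((d : ℝ) ^ n)⁻¹ * ‖fac (g l) n False False (u l) z‖
          ≤ ((d : ℝ) ^ n)⁻¹ * ((d : ℝ) ^ n * M l) :=
            mul_le_mul_of_nonneg_left e1 (by positivity)
        _ = M l := by
            field_simp
        _ ≤ T := hTM l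
    have hBb : ∀ z, ‖B z‖ ≤ T ^ k := by
      intro z
      rw [hB]
      simp only
      rw [norm_prod]
      calc ∏ l ∈ I.1ᶜ, ‖((d : ℂ) ^ n)⁻¹ * fac (g l) n False False (u l) (z l)‖
          ≤ ∏ l ∈ I.1ᶜ, T :=
            Finset.prod_le_prod (fun _ _ => norm_nonneg _) fun l _ => hvb l (z l)
        _ ≤ T ^ k := by
            rw [Finset.prod_const]
            exact pow_le_pow_right₀ hT1 hck
    have hbb : ‖b‖ ≤ T ^ k := by
      rw [hb, norm_prod]
      calc ∏ l ∈ I.1ᶜ, ‖∫ x, u l x ∂(μ l)‖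
          ≤ ∏ l ∈ I.1ᶜ, T :=
            Finset.prod_le_prod (fun _ _ => norm_nonneg _) fun l _ => hTb l
        _ ≤ T ^ k := by
            rw [Finset.prod_const]
            exact pow_le_pow_right₀ hT1 hck
    obtain ⟨δ, hδ⟩ : ∃ δ : ℝ, δ = (κ' / d) ^ n + ε + L / (d : ℝ) ^ n := ⟨_, rfl⟩
    have hδ0 : 0 ≤ δ := by rw [hδ]; positivity
    have hgood : ∀ z : Fin k → ℂ,
        (∀ l, l ∉ I.1 → Real.exp (-(ε * (d : ℝ) ^ n)) ≤ om (E l) (z l)) →
        ‖B z - b‖ ≤ k * T ^ k * δ := by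
      intro z hz
      have h := prod_sub_prod_le I.1ᶜ
        (fun l => ((d : ℂ) ^ n)⁻¹ * fac (g l) n False False (u l) (z l))
        (fun l => ∫ x, u l x ∂(μ l)) T δ hT1 hδ0 (fun l _ => hvb l (z l)) (fun l _ => hTb l)
        (fun l hl => by
          rw [Finset.mem_compl] at hl
          obtain ⟨e1, e2⟩ := om_log (E l) (z l) (ε * (d : ℝ) ^ n) (by positivity) (hz l hl)
          rw [hfout]
          refine (hC1 l n (z l) e1).trans ?_
          refine mul_le_mul (hTC l) ?_ (by positivity) hT0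
          rw [hδ, add_assoc]
          refine add_le_add le_rfl ?_
          rw [div_le_iff₀ hdn0, add_mul, div_mul_cancel₀ _ hdn0.ne']
          have := hLl l
          linarith)
      rw [hB, hb]
      refine h.trans (mul_le_mul_of_nonneg_right ?_ hδ0)
      exact mul_le_mul (by exact_mod_cast hck) (pow_le_pow_right₀ hT1 hck) (by positivity)
        (by positivity)
    -- the limit value
    have hlim : (S.c I : ℂ) * ∫ x, ∏ l, u l (x l) ∂(limMeas μ I) =
        ∫ z, b * (F z * S.h z I I) ∂S.σ := by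
      rw [integral_const_mul]
      have e1 : ∫ z, F z * S.h z I I ∂S.σ = (S.c I : ℂ) * ∏ l ∈ I.1, ∫ x, u l x := by
        rw [hF]
        rw [int_diag S I (fun l => fac (g l) n True True (u l)) hFl]
        congr 1
        refine Finset.prod_congr rfl fun l _ => ?_
        obtain ⟨hP, hQ, hPQ, hc, -⟩ := h1 d hd1 (g l) n
        have hD : 1 ≤ d ^ n := Nat.one_le_pow _ _ hd1
        have hi : Integrable (u l) := (hu l).continuous.integrable_of_hasCompactSupport (huc l)
        rw [← (h4 (d ^ n) _ _ hD hc hP hQ hPQ (u l) hi).2]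
        refine integral_congr_ae (Eventually.of_forall fun z => ?_)
        exact hfin l z
      rw [e1]
      have : ∀ l, SigmaFinite ((fun l => if l ∈ I.1 then (volume : Measure ℂ) else μ l) l) := by
        intro l
        have := hμp l
        simp only
        split_ifs
        · infer_instance
        · infer_instance
      have e2 : ∫ x, ∏ l, u l (x l) ∂(limMeas μ I) =
          ∏ l, ∫ x, u l x ∂((fun l => if l ∈ I.1 then (volume : Measure ℂ) else μ l) l) := by
        unfold limMeas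
        exact integral_fintype_prod_eq_prod
          (μ := fun l => if l ∈ I.1 then (volume : Measure ℂ) else μ l) u
      rw [e2, ← Finset.prod_mul_prod_compl I.1]
      have e3 : ∏ l ∈ I.1, ∫ x, u l x
          ∂((fun l => if l ∈ I.1 then (volume : Measure ℂ) else μ l) l)
          = ∏ l ∈ I.1, ∫ x, u l x := by
        refine Finset.prod_congr rfl fun l hl => ?_
        simp only [hl, if_true]
      have e4 : ∏ l ∈ I.1ᶜ, ∫ x, u l x
          ∂((fun l => if l ∈ I.1 then (volume : Measure ℂ) else μ l) l)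
          = ∏ l ∈ I.1ᶜ, ∫ x, u l x ∂(μ l) := by
        refine Finset.prod_congr rfl fun l hl => ?_
        rw [Finset.mem_compl] at hl
        simp only [hl, if_false]
      rw [e3, e4, hb]
      ring
    have hbd : Integrable (fun z => F z * B z * S.h z I I) S.σ := by
      have h := hFH.bdd_mul (c := T ^ k) hBm.aestronglyMeasurable (Eventually.of_forall hBb)
      refine h.congr (Eventually.of_forall fun z => ?_)
      simp only
      ring
    rw [hpair, hlim, ← integral_sub hbd (hFH.const_mul b)]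
    -- the estimate
    have hw : ∀ z, ‖F z * S.h z I I‖ₑ ≤
        (∏ l ∈ I.1, nfac (g l) n True True (fun x => ‖u l x‖ₑ) (z l)) *
          ENNReal.ofReal (S.h z I I).re := by
      intro z
      rw [hFe]
      exact mul_le_mul' (Finset.prod_le_prod' fun l _ => fac_le_nfac (g l) n (u l) (z l)) le_rfl
    have hwm : Measurable fun z : Fin k → ℂ =>
        (∏ l ∈ I.1, nfac (g l) n True True (fun x => ‖u l x‖ₑ) (z l)) *
          ENNReal.ofReal (S.h z I I).re := by
      refine Measurable.mul (Finset.measurable_prod _ fun l _ => ?_)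
        (Complex.measurable_re.comp (S.meas I I)).ennreal_ofReal
      exact (nfac_meas h1 h7 hd1 (g l) n (u l) (hum l)).comp (measurable_pi_apply l)
    have hD : ∀ z, ‖B z - b‖ₑ ≤ ENNReal.ofReal (2 * T ^ k) := by
      intro z
      rw [← ofReal_norm]
      refine ENNReal.ofReal_le_ofReal ((norm_sub_le _ _).trans ?_)
      have e1 := hBb z
      linarith
    have hpt := split_zone E I.1 h10 (fun z => ‖F z * S.h z I I‖ₑ) _ (fun z => ‖B z - b‖ₑ)
      (ENNReal.ofReal (k * T ^ k * δ)) (ENNReal.ofReal (2 * T ^ k)) ((d : ℝ) ^ n) ε η hdn0 hε hη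
      hη1 hw hD (fun z hz => by
        rw [← ofReal_norm]
        exact ENNReal.ofReal_le_ofReal (hgood z hz))
    have hint : ∫⁻ z, ‖F z * B z * S.h z I I - b * (F z * S.h z I I)‖ₑ ∂S.σ ≤
        ENNReal.ofReal (C2 * δ + C3 * η) := by
      have e0 : ∀ z, ‖F z * B z * S.h z I I - b * (F z * S.h z I I)‖ₑ =
          ‖B z - b‖ₑ * ‖F z * S.h z I I‖ₑ := by
        intro z
        rw [← enorm_mul]
        congr 1
        ring
      simp only [e0]
      refine (lintegral_mono hpt).trans ?_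
      have em : Measurable fun z => ‖F z * S.h z I I‖ₑ := (hFm.mul (S.meas I I)).enorm
      rw [lintegral_add_left (em.const_mul _), lintegral_const_mul _ em,
        lintegral_finsetSum _ fun p _ => (hwm.const_mul _).indicator (zone_meas _ _ _ _)]
      have e1 : ENNReal.ofReal (k * T ^ k * δ) * ∫⁻ z, ‖F z * S.h z I I‖ₑ ∂S.σ ≤
          ENNReal.ofReal (C2 * δ) := by
        refine (mul_le_mul' le_rfl habs).trans ?_
        rw [← ENNReal.ofReal_mul (by positivity), hC2]
        refine ENNReal.ofReal_le_ofReal (le_of_eq ?_)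
        ring
      have e2 : ∑ p ∈ (Finset.range (k + 1)) ×ˢ
          (Finset.univ.filter fun A : Finset (Fin k) => ¬ A ⊆ I.1),
          ∫⁻ z, (Zone E p.2 (ε * η ^ p.1 * (d : ℝ) ^ n)
            (η * (ε * η ^ p.1 * (d : ℝ) ^ n))).indicator (fun z => ENNReal.ofReal (2 * T ^ k) *
              ((∏ l ∈ I.1, nfac (g l) n True True (fun x => ‖u l x‖ₑ) (z l)) *
                ENNReal.ofReal (S.h z I I).re)) z ∂S.σ ≤ ENNReal.ofReal (C3 * η) := by
        rw [hC3, Finset.sum_mul, ENNReal.ofReal_sum_of_nonneg fun p _ =>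
          mul_nonneg (mul_nonneg (by positivity) (hCA0 _)) hη.le]
        refine Finset.sum_le_sum fun p hp => ?_
        rw [lintegral_indicator (zone_meas _ _ _ _), lintegral_const_mul _ hwm]
        have hp2 := (Finset.mem_filter.1 (Finset.mem_product.1 hp).2).2
        have e3 := hn₀ p n ((Finset.le_sup (f := n₀) hp).trans hn) hp2
        refine (mul_le_mul' le_rfl e3).trans ?_
        rw [← ENNReal.ofReal_mul (by positivity), mul_assoc (2 * T ^ k)]
      refine (add_le_add e1 e2).trans ?_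
      rw [← ENNReal.ofReal_add (mul_nonneg hC20 hδ0) (mul_nonneg hC30 hη.le)]
    have hfinal := enorm_integral_le_lintegral_enorm
      (μ := S.σ) (fun z => F z * B z * S.h z I I - b * (F z * S.h z I I))
    have h := hfinal.trans hint
    rw [← ofReal_norm, ENNReal.ofReal_le_ofReal_iff (add_nonneg (mul_nonneg hC20 hδ0)
      (mul_nonneg hC30 hη.le)), hδ] at h
    exact h
  -- the limit
  rw [Metric.tendsto_atTop]
  intro τ hτ
  have hε : 0 < τ / (4 * (C2 + 1)) := by positivity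
  have hη : 0 < min (1 / 2) (τ / (4 * (C3 + 1))) := lt_min (by norm_num) (by positivity)
  obtain ⟨n₀, hn₀⟩ := hmain _ _ hε hη (lt_of_le_of_lt (min_le_left _ _) (by norm_num))
  have hlim1 : Tendsto (fun n : ℕ => C2 * ((κ' / d) ^ n + L * ((d : ℝ)⁻¹) ^ n)) atTop
      (𝓝 (C2 * (0 + L * 0))) := by
    refine ((tendsto_pow_atTop_nhds_zero_of_lt_one (by positivity)
      ((div_lt_one hd0).2 hκd)).add ((tendsto_pow_atTop_nhds_zero_of_lt_one (by positivity)
      (inv_lt_one_of_one_lt₀ (by exact_mod_cast hd))).const_mul L)).const_mul C2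
  have hz : C2 * (0 + L * 0) = 0 := by ring
  rw [hz] at hlim1
  obtain ⟨n₁, hn₁⟩ := (Metric.tendsto_atTop.1 hlim1) (τ / 4) (by positivity)
  refine ⟨max n₀ n₁, fun n hn => ?_⟩
  have e1 := hn₀ n ((le_max_left _ _).trans hn)
  have e2 := hn₁ n ((le_max_right _ _).trans hn)
  rw [Real.dist_eq, sub_zero] at e2
  have e3 := (le_abs_self _).trans_lt e2
  rw [dist_eq_norm]
  refine e1.trans_lt ?_
  have e4 : C2 * (τ / (4 * (C2 + 1))) ≤ τ / 4 := by
    rw [mul_div_assoc', div_le_div_iff₀ (by positivity) (by norm_num)]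
    nlinarith
  have e5 : C3 * min (1 / 2) (τ / (4 * (C3 + 1))) ≤ τ / 4 := by
    refine (mul_le_mul_of_nonneg_left (min_le_right _ _) hC30).trans ?_
    rw [mul_div_assoc', div_le_div_iff₀ (by positivity) (by norm_num)]
    nlinarith
  have e6 : C2 * ((κ' / d) ^ n + τ / (4 * (C2 + 1)) + L / (d : ℝ) ^ n) =
      C2 * ((κ' / d) ^ n + L * ((d : ℝ)⁻¹) ^ n) + C2 * (τ / (4 * (C2 + 1))) := by
    rw [inv_pow, div_eq_mul_inv L]
    ring
  rw [e6]
  linarith

end Pool.Agent.H10.UDB
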